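import Mathlib
import Pool.Agent.Helper175.NS.Mask
import Pool.Agent.H933R3.Ball

set_option autoImplicit false

/-!
# Chains of stellar moves (also at the boundary), and their joins with a simplex
-/

namespace Pool.Agent.V11153.NLC

open Finset Pool.Agent.H933R3 Pool.Agent.Helper175.NS

/-- the join of the simplex `τ` with the simplices in `M` -/
def J {V : Type} [DecidableEq V] (τ : Finset V) (M : Finset (Finset V)) : Finset (Finset V) :=
  M.image (fun β => τ ∪ β)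

theorem mem_J {V : Type} [DecidableEq V] {τ : Finset V} {M : Finset (Finset V)} {A : Finset V} :
    A ∈ J τ M ↔ ∃ β ∈ M, τ ∪ β = A := by
  rw [J, mem_image]

theorem star_J {V : Type} [DecidableEq V] (τ : Finset V) (M : Finset (Finset V)) (ρ : Finset V)
    (v : V) (hρ : ∀ n ∈ ρ, n ∉ τ) : star (J τ M) ρ v = J τ (star M ρ v) := by
  have key1 : ∀ β : Finset V, ρ ⊆ τ ∪ β ↔ ρ ⊆ β := by
    intro β
    constructor
    · intro h n hn
      rcases mem_union.1 (h hn) with h1 | h1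
      · exact absurd h1 (hρ n hn)
      · exact h1
    · intro h
      exact h.trans subset_union_right
  have key2 : ∀ β : Finset V, ∀ z ∈ ρ,
      insert v ((τ ∪ β).erase z) = τ ∪ insert v (β.erase z) := by
    intro β z hz
    have h1 := hρ z hz
    ext n
    simp only [mem_insert, mem_erase, mem_union]
    constructor
    · rintro (h2 | ⟨h2, h3 | h3⟩)
      · exact Or.inr (Or.inl h2)
      · exact Or.inl h3
      · exact Or.inr (Or.inr ⟨h2, h3⟩)
    · rintro (h2 | h2 | ⟨h2, h3⟩)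
      · refine Or.inr ⟨?_, Or.inl h2⟩
        rintro rfl
        exact h1 h2
      · exact Or.inl h2
      · exact Or.inr ⟨h2, Or.inr h3⟩
  ext A
  constructor
  · intro hA
    rw [mem_J]
    rcases mem_star.1 hA with ⟨h1, h2⟩ | ⟨F, h1, h2, z, hz, rfl⟩
    · obtain ⟨β, hβ, rfl⟩ := mem_J.1 h1
      exact ⟨β, mem_star.2 (Or.inl ⟨hβ, fun h => h2 ((key1 β).2 h)⟩), rfl⟩
    · obtain ⟨β, hβ, rfl⟩ := mem_J.1 h1
      exact ⟨insert v (β.erase z), mem_star.2 (Or.inr ⟨β, hβ, (key1 β).1 h2, z, hz, rfl⟩),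
        (key2 β z hz).symm⟩
  · intro hA
    rw [mem_star]
    obtain ⟨γ, hγ, rfl⟩ := mem_J.1 hA
    rcases mem_star.1 hγ with ⟨h1, h2⟩ | ⟨β, h1, h2, z, hz, rfl⟩
    · exact Or.inl ⟨mem_J.2 ⟨γ, h1, rfl⟩, fun h => h2 ((key1 γ).1 h)⟩
    · exact Or.inr ⟨τ ∪ β, mem_J.2 ⟨β, h1, rfl⟩, (key1 β).2 h2, z, hz, key2 β z hz⟩

/-- the move which replaces the star `ρ * ∂ρ' * Γ` by `∂ρ * ρ' * Γ` -/
def applyG (l : List ℕ) (ρ ρ' : ℕ) : List ℕ :=
  l.filter (fun m => !(decide (m &&& ρ = ρ))) ++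
    ((l.filter (fun m => decide (m &&& ρ = ρ))).flatMap (fun m =>
      (bits ρ).map (fun z => ((ρ ^^^ 2 ^ z) ||| ρ') ||| (m ^^^ (m &&& (ρ ||| ρ')))))).foldr
        (fun a acc => if acc.contains a then acc else a :: acc) []

def okG (l l' : List ℕ) (ρ ρ' : ℕ) : Bool :=
  sameB (starB l ρ 13) (starB l' ρ' 13) && l'.all (fun m => decide (m < 8192)) &&
    decide (ρ < 8192) && decide (ρ' < 8192) && decide (1 ≤ ρ) && decide (1 ≤ ρ')

def chainG : List ℕ → List (ℕ × ℕ) → List ℕ → Bool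
  | l, [], t => sameB l t
  | l, r :: ms, t => okG l (applyG l r.1 r.2) r.1 r.2 && chainG (applyG l r.1 r.2) ms t

theorem dec_nonempty {ρ : ℕ} (h1 : ρ < 8192) (h2 : 1 ≤ ρ) : (dec ρ).Nonempty := by
  by_contra hcon
  rw [not_nonempty_iff_eq_empty] at hcon
  have h3 : ρ = 0 := by
    apply Nat.eq_of_testBit_eq
    intro i
    rw [Nat.zero_testBit]
    by_contra h4
    rw [Bool.not_eq_false] at h4
    have h5 : i < 14 := by
      by_contra h6
      rw [Nat.testBit_eq_false_of_lt (by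
        calc ρ < 2 ^ 13 := by norm_num; exact h1
          _ ≤ 2 ^ i := Nat.pow_le_pow_right (by norm_num) (by omega))] at h4
      exact absurd h4 (by decide)
    have h7 : i ∈ dec ρ := mem_dec.2 ⟨h5, h4⟩
    rw [hcon] at h7
    exact absurd h7 (notMem_empty i)
  omega

theorem step_J (τ : Finset ℕ) (hτ : ∀ n ∈ τ, 14 ≤ n) (M M' : Finset (Finset ℕ))
    (ρ ρ' : Finset ℕ) (hne : ρ.Nonempty) (hne' : ρ'.Nonempty)
    (hρ : ∀ n ∈ ρ, n < 13) (hρ' : ∀ n ∈ ρ', n < 13)
    (hM : ∀ β ∈ M, 13 ∉ β) (hM' : ∀ β ∈ M', 13 ∉ β)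
    (heq : star M ρ 13 = star M' ρ' 13) :
    Nonempty (Sp (J τ M') ≃ₜ Sp (J τ M)) := by
  have key : ∀ N : Finset (Finset ℕ), (∀ β ∈ N, 13 ∉ β) → ∀ F ∈ J τ N, 13 ∉ F := by
    intro N hN F hF h13
    obtain ⟨β, hβ, rfl⟩ := mem_J.1 hF
    rcases mem_union.1 h13 with h | h
    · have := hτ 13 h
      omega
    · exact hN β hβ h
  have hd : ∀ σ : Finset ℕ, (∀ n ∈ σ, n < 13) → ∀ n ∈ σ, n ∉ τ := by
    intro σ hσ n hn hnτ
    have := hσ n hn
    have := hτ n hnτ
    omega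
  obtain ⟨e1⟩ := star_homeo (J τ M) ρ 13 hne (key M hM) (fun h => by
    have := hρ 13 h
    omega)
  obtain ⟨e2⟩ := star_homeo (J τ M') ρ' 13 hne' (key M' hM') (fun h => by
    have := hρ' 13 h
    omega)
  rw [star_J τ M ρ 13 (hd ρ hρ), heq, ← star_J τ M' ρ' 13 (hd ρ' hρ')] at e1
  exact ⟨e2.symm.trans e1⟩

theorem chain_J (τ : Finset ℕ) (hτ : ∀ n ∈ τ, 14 ≤ n) (ms : List (ℕ × ℕ)) :
    ∀ (l t : List ℕ), (∀ m ∈ l, m < 8192) → chainG l ms t = true →
      Nonempty (Sp (J τ (decL t)) ≃ₜ Sp (J τ (decL l))) := by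
  induction ms with
  | nil =>
    intro l t _ h
    rw [chainG] at h
    rw [decL_of_sameB h]
    exact ⟨Homeomorph.refl _⟩
  | cons r ms ih =>
    intro l t hl h
    rw [chainG, Bool.and_eq_true] at h
    obtain ⟨h1, h2⟩ := h
    simp only [okG, Bool.and_eq_true, decide_eq_true_eq, List.all_eq_true] at h1
    obtain ⟨⟨⟨⟨⟨h3, h4⟩, h5⟩, h6⟩, h7⟩, h8⟩ := h1
    obtain ⟨e1⟩ := ih (applyG l r.1 r.2) t h4 h2
    have h13 : ∀ l' : List ℕ, (∀ m ∈ l', m < 8192) → ∀ β ∈ decL l', 13 ∉ β := by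
      intro l' hl' β hβ hmem
      obtain ⟨m, hm, rfl⟩ := mem_decL.1 hβ
      have := dec_lt (hl' m hm) 13 hmem
      omega
    have heq : star (decL l) (dec r.1) 13 = star (decL (applyG l r.1 r.2)) (dec r.2) 13 := by
      rw [← decL_starB l r.1 h5, ← decL_starB _ r.2 h6]
      exact decL_of_sameB h3
    obtain ⟨e2⟩ := step_J τ hτ (decL l) (decL (applyG l r.1 r.2)) (dec r.1) (dec r.2)
      (dec_nonempty h5 h7) (dec_nonempty h6 h8)
      (dec_lt h5) (dec_lt h6) (h13 l hl) (h13 _ h4) heq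
    exact ⟨e1.trans e2⟩

/-- the facets of the ball -/
def B38 : List ℕ := [23, 75, 531, 579, 2061, 329, 2313, 1073, 1553, 1185, 2209, 1345, 1601, 1409,
  2433, 1038, 278, 1286, 2322, 2578, 2242, 2626, 1410, 2434, 1068, 2092, 1316, 2200, 2328, 1192,
  2216, 1136, 2256, 3152, 3600, 1376, 3648, 15]

def movesG : List (ℕ × ℕ) := [(1284, 34), (1028, 42), (3072, 592), (2560, 82), (160, 3072),
  (34, 1028), (129, 3328), (1284, 34), (512, 81), (1040, 97), (3, 68), (1282, 160), (97, 1040),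
  (1040, 97), (1058, 132), (68, 3), (132, 1058), (40, 3076), (34, 132), (1088, 289), (11, 68),
  (1025, 2336), (2112, 146), (68, 11), (257, 2112), (9, 68), (160, 1284), (1056, 2308), (320, 40),
  (132, 1282), (3, 84), (2050, 400), (3072, 132), (2112, 9), (258, 1040), (2, 1088), (68, 1025),
  (73, 1056), (65, 1072), (132, 3072), (80, 160), (20, 257), (1296, 129), (2064, 392),
  (12, 3073), (129, 1296), (2176, 1288), (1064, 65), (3328, 12), (1288, 132), (2304, 44),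
  (3072, 13), (2048, 37), (1056, 80), (64, 1056), (132, 1288), (1040, 129), (136, 1040),
  (1040, 136), (128, 1040), (1028, 265), (4, 289), (9, 1312), (272, 9), (9, 272), (256, 9),
  (1024, 56)]

theorem chainG_ok : chainG B38 movesG [57] = true := by decide +kernel

theorem B38_lt : ∀ m ∈ B38, m < 4096 := by decide

theorem join_ball (τ : Finset ℕ) (hτ : ∀ n ∈ τ, 14 ≤ n) (d : ℕ) (hd : τ.card + 3 = d) :
    Nonempty (Sp (J τ (decL B38)) ≃ₜ
      Metric.closedBall (0 : EuclideanSpace ℝ (Fin d)) 1) := by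
  obtain ⟨e⟩ := chain_J τ hτ movesG B38 [57] (fun m hm => (B38_lt m hm).trans (by norm_num))
    chainG_ok
  have h1 : J τ (decL [57]) = {τ ∪ dec 57} := by
    ext A
    rw [mem_J, mem_singleton]
    constructor
    · rintro ⟨β, hβ, rfl⟩
      obtain ⟨m, hm, rfl⟩ := mem_decL.1 hβ
      rw [List.mem_singleton] at hm
      rw [hm]
    · rintro rfl
      exact ⟨dec 57, mem_decL.2 ⟨57, List.mem_singleton_self _, rfl⟩, rfl⟩
  have h2 : (τ ∪ dec 57).card = d + 1 := by
    rw [card_union_of_disjoint]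
    · have : (dec 57).card = 4 := by decide
      omega
    · rw [disjoint_left]
      intro n hn hn'
      have := hτ n hn
      rw [mem_dec] at hn'
      omega
  obtain ⟨e2⟩ := simplex_ball (τ ∪ dec 57) d h2
  rw [h1] at e
  exact ⟨e.symm.trans e2⟩

end Pool.Agent.V11153.NLC
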