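import Mathlib
import Pool.Agent.V11153.NLC.Chain
import Pool.Agent.Helper175.NS.Local
import Pool.Agent.Y364.NL.Abs

set_option autoImplicit false

/-!
# Iterated cones over a 3-ball with a knotted spanning edge
-/

namespace Pool.Agent.V11153.NLC

open Finset Pool.Agent.H933R3 Pool.Agent.Helper175.NS

/-! ### Cones are non-evasive -/

theorem nonEvasive_of_cone {V : Type} [DecidableEq V] (a : V) :
    ∀ (N : ℕ) (K : Finset (Finset V)), K.card ≤ N → IsCx K → (∀ σ ∈ K, insert a σ ∈ K) →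
      NonEvasive K := by
  intro N
  induction N with
  | zero =>
    intro K hN hK _
    have h1 := card_pos.2 ⟨_, hK.1⟩
    omega
  | succ N ih =>
    intro K hN hK hc
    by_cases hv : ∃ v, v ≠ a ∧ {v} ∈ K
    · obtain ⟨v, hva, hv⟩ := hv
      have hdel : (del K v).card < K.card := by
        apply card_lt_card
        refine ⟨filter_subset _ _, fun h => ?_⟩
        have := (mem_filter.1 (h hv)).2
        exact this (mem_singleton_self v)
      have hlink : (link K v).card ≤ (del K v).card := by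
        apply card_le_card
        intro σ hσ
        obtain ⟨h1, h2, -⟩ := mem_filter.1 hσ
        exact mem_filter.2 ⟨h1, h2⟩
      apply NonEvasive.step K v hv
      · apply ih _ (by omega)
        · refine ⟨mem_filter.2 ⟨hK.1, notMem_empty v⟩, ?_⟩
          intro σ hσ τ hτ
          obtain ⟨h1, h2⟩ := mem_filter.1 hσ
          exact mem_filter.2 ⟨hK.2 σ h1 τ hτ, fun h => h2 (hτ h)⟩
        · intro σ hσ
          obtain ⟨h1, h2⟩ := mem_filter.1 hσ
          refine mem_filter.2 ⟨hc σ h1, ?_⟩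
          rw [mem_insert, not_or]
          exact ⟨hva, h2⟩
      · apply ih _ (by omega)
        · refine ⟨mem_filter.2 ⟨hK.1, notMem_empty v, ?_⟩, ?_⟩
          · rw [insert_empty_eq]; exact hv
          · intro σ hσ τ hτ
            obtain ⟨h1, h2, h3⟩ := mem_filter.1 hσ
            exact mem_filter.2 ⟨hK.2 σ h1 τ hτ, fun h => h2 (hτ h),
              hK.2 _ h3 _ (insert_subset_insert v hτ)⟩
        · intro σ hσ
          obtain ⟨h1, h2, h3⟩ := mem_filter.1 hσ
          refine mem_filter.2 ⟨hc σ h1, ?_, ?_⟩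
          · rw [mem_insert, not_or]
            exact ⟨hva, h2⟩
          · rw [insert_comm]
            exact hc _ h3
    · push Not at hv
      have hK2 : K = {∅, {a}} := by
        ext σ
        rw [mem_insert, mem_singleton]
        constructor
        · intro hσ
          rw [← subset_singleton_iff]
          intro v hvσ
          rw [mem_singleton]
          by_contra hva
          exact hv v hva (hK.2 σ hσ _ (singleton_subset_iff.2 hvσ))
        · rintro (rfl | rfl)
          · exact hK.1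
          · have := hc _ hK.1
            rwa [insert_empty_eq] at this
      rw [hK2]
      exact NonEvasive.point a

/-! ### The complexes -/

/-- the facet of the iterated cone over the tetrahedron with mask `m` -/
def fac (k m : ℕ) : Finset (Fin (13 + k)) :=
  univ.filter (fun i => m.testBit i.val = true ∨ 12 ≤ i.val)

theorem mem_fac {k m : ℕ} {i : Fin (13 + k)} :
    i ∈ fac k m ↔ m.testBit i.val = true ∨ 12 ≤ i.val := by
  simp [fac]

/-- the `(k + 1)`-fold cone over the 3-ball with the facets `B38` -/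
def Kc (k : ℕ) : Finset (Finset (Fin (13 + k))) :=
  univ.filter (fun σ => ∃ m ∈ B38, σ ⊆ fac k m)

theorem mem_Kc {k : ℕ} {σ : Finset (Fin (13 + k))} : σ ∈ Kc k ↔ ∃ m ∈ B38, σ ⊆ fac k m := by
  simp [Kc]

theorem isCx_Kc (k : ℕ) : IsCx (Kc k) := by
  refine ⟨mem_Kc.2 ⟨23, by decide +kernel, empty_subset _⟩, ?_⟩
  intro σ hσ τ hτ
  obtain ⟨m, hm, h⟩ := mem_Kc.1 hσ
  exact mem_Kc.2 ⟨m, hm, hτ.trans h⟩

theorem nonEvasive_Kc (k : ℕ) : NonEvasive (Kc k) := by
  apply nonEvasive_of_cone (⟨12, by omega⟩ : Fin (13 + k)) _ _ le_rfl (isCx_Kc k)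
  intro σ hσ
  obtain ⟨m, hm, h⟩ := mem_Kc.1 hσ
  refine mem_Kc.2 ⟨m, hm, insert_subset ?_ h⟩
  rw [mem_fac]
  exact Or.inr le_rfl

theorem bit_lt {m i : ℕ} (hm : m ∈ B38) (h : m.testBit i = true) : i < 12 := by
  by_contra hcon
  have h1 : m < 2 ^ i := lt_of_lt_of_le (B38_lt m hm) (by
    calc 4096 = 2 ^ 12 := by norm_num
      _ ≤ 2 ^ i := Nat.pow_le_pow_right (by norm_num) (by omega))
  rw [Nat.testBit_eq_false_of_lt h1] at h
  exact absurd h (by decide)

/-- the relabelling -/
def rl (k : ℕ) (i : Fin (13 + k)) : ℕ := if i.val < 12 then i.val else i.val + 100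

theorem rl_inj (k : ℕ) : Function.Injective (rl k) := by
  intro i j h
  unfold rl at h
  apply Fin.ext
  split_ifs at h <;> omega

/-- the additional vertices -/
def tau (k : ℕ) : Finset ℕ := Finset.Ico 112 (113 + k)

theorem image_fac {k m : ℕ} (hm : m ∈ B38) : (fac k m).image (rl k) = tau k ∪ dec m := by
  ext n
  rw [mem_image, mem_union, tau, mem_Ico, mem_dec]
  constructor
  · rintro ⟨i, hi, rfl⟩
    rw [mem_fac] at hi
    unfold rl
    rcases hi with hi | hi
    · have := bit_lt hm hi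
      rw [if_pos this]
      right
      exact ⟨by omega, hi⟩
    · rw [if_neg (by omega)]
      left
      have := i.isLt
      omega
  · rintro (⟨h1, h2⟩ | ⟨h1, h2⟩)
    · refine ⟨⟨n - 100, by omega⟩, ?_, ?_⟩
      · rw [mem_fac]
        right
        show 12 ≤ n - 100
        omega
      · unfold rl
        rw [if_neg (by show ¬ (n - 100 < 12); omega)]
        show n - 100 + 100 = n
        omega
    · have := bit_lt hm h2
      refine ⟨⟨n, by omega⟩, ?_, ?_⟩
      · rw [mem_fac]
        exact Or.inl h2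
      · unfold rl
        rw [if_pos (by show n < 12; omega)]

theorem card_fac {k m : ℕ} (hm : m ∈ B38) : (fac k m).card = 5 + k := by
  have h1 : (fac k m).card = ((fac k m).image (rl k)).card :=
    (card_image_of_injective _ (rl_inj k)).symm
  rw [h1, image_fac hm, card_union_of_disjoint]
  · have h2 : ∀ m ∈ B38, (dec m).card = 4 := by decide +kernel
    rw [h2 m hm, tau, Nat.card_Ico]
    omega
  · rw [disjoint_left]
    intro n hn hn'
    rw [tau, mem_Ico] at hn
    rw [mem_dec] at hn'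
    omega

theorem facet_Kc {k : ℕ} {F : Finset (Fin (13 + k))} :
    IsFacet (Kc k) F ↔ ∃ m ∈ B38, F = fac k m := by
  constructor
  · rintro ⟨h1, h2⟩
    obtain ⟨m, hm, h⟩ := mem_Kc.1 h1
    exact ⟨m, hm, (h2 _ (mem_Kc.2 ⟨m, hm, Subset.refl _⟩) h).symm⟩
  · rintro ⟨m, hm, rfl⟩
    refine ⟨mem_Kc.2 ⟨m, hm, Subset.refl _⟩, ?_⟩
    intro G hG h
    obtain ⟨m', hm', h'⟩ := mem_Kc.1 hG
    apply (eq_of_subset_of_card_le h _).symm
    calc G.card ≤ (fac k m').card := card_le_card h'
      _ = (fac k m).card := by rw [card_fac hm, card_fac hm']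

/-! ### The realization -/

/-- the set of facets -/
def Gs (k : ℕ) : Finset (Finset (Fin (13 + k))) := (B38.map (fac k)).toFinset

theorem mem_Gs {k : ℕ} {F : Finset (Fin (13 + k))} : F ∈ Gs k ↔ ∃ m ∈ B38, fac k m = F := by
  rw [Gs, List.mem_toFinset, List.mem_map]

theorem Gs_image (k : ℕ) :
    (Gs k).image (fun F => F.image (rl k)) = J (tau k) (decL B38) := by
  ext A
  rw [mem_image, mem_J]
  constructor
  · rintro ⟨F, hF, rfl⟩
    obtain ⟨m, hm, rfl⟩ := mem_Gs.1 hF
    exact ⟨dec m, mem_decL.2 ⟨m, hm, rfl⟩, (image_fac hm).symm⟩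
  · rintro ⟨β, hβ, rfl⟩
    obtain ⟨m, hm, rfl⟩ := mem_decL.1 hβ
    exact ⟨fac k m, mem_Gs.2 ⟨m, hm, rfl⟩, image_fac hm⟩

theorem Gs_ball (k : ℕ) :
    Nonempty (Sp (Gs k) ≃ₜ Metric.closedBall (0 : EuclideanSpace ℝ (Fin (4 + k))) 1) := by
  obtain ⟨e1⟩ := relabel_homeo (Gs k) (rl k) univ (fun F _ => subset_univ F)
    ((rl_inj k).injOn)
  rw [Gs_image] at e1
  obtain ⟨e2⟩ := join_ball (tau k) (by
    intro n hn
    rw [tau, mem_Ico] at hn
    omega) (4 + k) (by
    rw [tau, Nat.card_Ico]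
    omega)
  exact ⟨e1.symm.trans e2⟩

theorem realization_eq (k : ℕ) : realization (Kc k) = Sp (Gs k) := by
  ext x
  constructor
  · rintro ⟨h0, h1, σ, hσ, h2⟩
    obtain ⟨m, hm, h3⟩ := mem_Kc.1 hσ
    refine ⟨h0, fac k m, mem_Gs.2 ⟨m, hm, rfl⟩, fun i hi => h2 i (fun h => hi (h3 h)), ?_⟩
    rw [← h1]
    exact sum_subset (subset_univ _) (fun i _ hi => h2 i (fun h => hi (h3 h)))
  · rintro ⟨h0, F, hF, h1, h2⟩
    obtain ⟨m, hm, rfl⟩ := mem_Gs.1 hF
    refine ⟨h0, ?_, fac k m, mem_Kc.2 ⟨m, hm, Subset.refl _⟩, h1⟩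
    rw [← h2]
    exact (sum_subset (subset_univ _) (fun i _ hi => h1 i hi)).symm

theorem isBall_Kc (k : ℕ) : IsBall (4 + k) (Kc k) := by
  unfold IsBall
  rw [realization_eq]
  exact Gs_ball k

/-! ### The local system -/

/-- the decidable form of the local conditions -/
def GoodC (s : List ℕ) : Prop :=
  (∀ u ∈ s, u < 10 → ∀ c, psi u u c = c) ∧
  (∀ u ∈ s, u < 10 → ∀ v ∈ s, v < 10 → ∀ w ∈ s, w < 10 → ∀ c, psi v w (psi u v c) = psi u w c) ∧
  (10 ∈ s → 11 ∈ s → ∀ u ∈ s, u < 10 → ∀ v ∈ s, v < 10 → psi u v (col 10 u) = col 10 v)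

instance (s : List ℕ) : Decidable (GoodC s) := by unfold GoodC; infer_instance

theorem goodC_all : ∀ m ∈ B38, GoodC (bits m) := by decide +kernel

theorem edge_masks : ∀ m ∈ B38, m.testBit 10 = true → m.testBit 11 = true →
    m = 3152 ∨ m = 3600 ∨ m = 3648 := by decide +kernel

variable {k : ℕ}

/-- the codimension two face which is the join of the knotted edge with the apexes -/
def A0 (k : ℕ) : Finset (Fin (13 + k)) := univ.filter (fun i => 10 ≤ i.val)

theorem mem_A0 {i : Fin (13 + k)} : i ∈ A0 k ↔ 10 ≤ i.val := by simp [A0]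

theorem card_A0 : (A0 k).card = 3 + k := by
  have h : (A0 k).image Fin.val = Finset.Ico 10 (13 + k) := by
    ext n
    rw [mem_image, mem_Ico]
    constructor
    · rintro ⟨i, hi, rfl⟩
      rw [mem_A0] at hi
      exact ⟨hi, i.isLt⟩
    · rintro ⟨h1, h2⟩
      exact ⟨⟨n, h2⟩, mem_A0.2 h1, rfl⟩
  rw [← card_image_of_injective _ (Fin.val_injective (n := 13 + k)), h, Nat.card_Ico]
  omega

theorem mem_bits_of {m : ℕ} {u : Fin (13 + k)} (hu : u ∈ fac k m) (hQ : u.val < 10) :
    u.val ∈ bits m := by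
  rw [mem_bits, mem_dec]
  rcases mem_fac.1 hu with h | h
  · exact ⟨by omega, h⟩
  · omega

/-- the facets around `A0` -/
theorem facet_A0 {F : Finset (Fin (13 + k))} (hF : IsFacet (Kc k) F) (h : A0 k ⊆ F) :
    ∃ m, (m = 3152 ∨ m = 3600 ∨ m = 3648) ∧ m ∈ B38 ∧ F = fac k m := by
  obtain ⟨m, hm, rfl⟩ := facet_Kc.1 hF
  refine ⟨m, edge_masks m hm ?_ ?_, hm, rfl⟩
  · have h1 := h (mem_A0.2 (le_refl 10) : (⟨10, by omega⟩ : Fin (13 + k)) ∈ A0 k)
    rcases mem_fac.1 h1 with h2 | h2
    · exact h2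
    · exact absurd h2 (by norm_num)
  · have h1 := h (mem_A0.2 (by norm_num) : (⟨11, by omega⟩ : Fin (13 + k)) ∈ A0 k)
    rcases mem_fac.1 h1 with h2 | h2
    · exact h2
    · exact absurd h2 (by norm_num)

theorem ridge_A0 {R : Finset (Fin (13 + k))} (hR : R.card = 4 + k) (h : A0 k ⊆ R) :
    ∃ a, a.val < 10 ∧ R = insert a (A0 k) := by
  have h1 : (R \ A0 k).card = 1 := by
    rw [card_sdiff_of_subset h, hR, card_A0]
    omega
  obtain ⟨a, ha⟩ := card_eq_one.1 h1
  have ha' : a ∈ R \ A0 k := by rw [ha]; exact mem_singleton_self a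
  rw [mem_sdiff, mem_A0] at ha'
  refine ⟨a, by omega, ?_⟩
  rw [← sdiff_union_of_subset h, ha]
  rfl

theorem vert_of {m : ℕ} {a : Fin (13 + k)} (h : a ∈ fac k m) (ha : a.val < 10) :
    (m = 3152 → a.val = 4 ∨ a.val = 6) ∧ (m = 3600 → a.val = 4 ∨ a.val = 9) ∧
      (m = 3648 → a.val = 6 ∨ a.val = 9) := by
  have h1 : m.testBit a.val = true := by
    rcases mem_fac.1 h with h | h
    · exact h
    · omega
  generalize a.val = n at ha h1
  refine ⟨?_, ?_, ?_⟩
  · rintro rfl
    revert h1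
    interval_cases n <;> decide +kernel
  · rintro rfl
    revert h1
    interval_cases n <;> decide +kernel
  · rintro rfl
    revert h1
    interval_cases n <;> decide +kernel

theorem cyc_nat {m m' m2 a b b' c : ℕ} (hm : m = 3152 ∨ m = 3600 ∨ m = 3648)
    (hm' : m' = 3152 ∨ m' = 3600 ∨ m' = 3648) (hm2 : m2 = 3152 ∨ m2 = 3600 ∨ m2 = 3648)
    (hmm : m ≠ m')
    (e1 : (m = 3152 → a = 4 ∨ a = 6) ∧ (m = 3600 → a = 4 ∨ a = 9) ∧ (m = 3648 → a = 6 ∨ a = 9))
    (e2 : (m' = 3152 → a = 4 ∨ a = 6) ∧ (m' = 3600 → a = 4 ∨ a = 9) ∧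
      (m' = 3648 → a = 6 ∨ a = 9))
    (e3 : (m = 3152 → b = 4 ∨ b = 6) ∧ (m = 3600 → b = 4 ∨ b = 9) ∧ (m = 3648 → b = 6 ∨ b = 9))
    (e4 : (m' = 3152 → b' = 4 ∨ b' = 6) ∧ (m' = 3600 → b' = 4 ∨ b' = 9) ∧
      (m' = 3648 → b' = 6 ∨ b' = 9))
    (e5 : (m2 = 3152 → c = 4 ∨ c = 6) ∧ (m2 = 3600 → c = 4 ∨ c = 9) ∧
      (m2 = 3648 → c = 6 ∨ c = 9))
    (hba : b ≠ a) (hba' : b' ≠ a) : c = a ∨ c = b ∨ c = b' := by
  have hc : c = 4 ∨ c = 6 ∨ c = 9 := by
    rcases hm2 with h | h | h
    · have := e5.1 h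
      omega
    · have := e5.2.1 h
      omega
    · have := e5.2.2 h
      omega
  clear e5 hm2
  rcases hm with rfl | rfl | rfl <;> rcases hm' with rfl | rfl | rfl <;>
    first
    | exact absurd rfl hmm
    | (norm_num at e1 e2 e3 e4
       omega)

theorem cyc_aux {F F' R : Finset (Fin (13 + k))} (hF : IsFacet (Kc k) F)
    (hF' : IsFacet (Kc k) F') (hne : F ≠ F') (hR : R.card = 4 + k) (hA : A0 k ⊆ R) (h1 : R ⊆ F)
    (h2 : R ⊆ F') (G : Finset (Finset (Fin (13 + k))))
    (hG : ∃ R1 ∈ G, A0 k ⊆ R1 ∧ R1.card = 4 + k ∧ R1 ⊆ F ∧ R1 ≠ R)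
    (hG' : ∃ R1 ∈ G, A0 k ⊆ R1 ∧ R1.card = 4 + k ∧ R1 ⊆ F' ∧ R1 ≠ R)
    (R' : Finset (Fin (13 + k))) (hA' : A0 k ⊆ R') (hR' : R'.card = 4 + k)
    (hX : ∃ X, IsFacet (Kc k) X ∧ R' ⊆ X) : R' ∈ insert R G := by
  obtain ⟨m, hm, hmB, rfl⟩ := facet_A0 hF (hA.trans h1)
  obtain ⟨m', hm', hmB', rfl⟩ := facet_A0 hF' (hA.trans h2)
  have hmm : m ≠ m' := fun e => hne (by rw [e])
  obtain ⟨a, ha, rfl⟩ := ridge_A0 hR hA
  obtain ⟨R1, g1, g2, g3, g4, g5⟩ := hG
  obtain ⟨R2, j1, j2, j3, j4, j5⟩ := hG'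
  obtain ⟨b, hb, rfl⟩ := ridge_A0 g3 g2
  obtain ⟨b', hb', rfl⟩ := ridge_A0 j3 j2
  obtain ⟨c, hc, rfl⟩ := ridge_A0 hR' hA'
  obtain ⟨X, hX1, hX2⟩ := hX
  obtain ⟨m2, hm2, -, rfl⟩ := facet_A0 hX1 (hA'.trans hX2)
  have e1 := vert_of (h1 (mem_insert_self a _)) ha
  have e2 := vert_of (h2 (mem_insert_self a _)) ha
  have e3 := vert_of (g4 (mem_insert_self b _)) hb
  have e4 := vert_of (j4 (mem_insert_self b' _)) hb'
  have e5 := vert_of (hX2 (mem_insert_self c _)) hc
  have hba : b.val ≠ a.val := by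
    intro e
    apply g5
    have e6 : b = a := Fin.ext e
    rw [e6]
  have hba' : b'.val ≠ a.val := by
    intro e
    apply j5
    have e6 : b' = a := Fin.ext e
    rw [e6]
  rcases cyc_nat hm hm' hm2 hmm e1 e2 e3 e4 e5 hba hba' with e | e | e
  · have e6 : c = a := Fin.ext e
    subst e6
    exact mem_insert_self _ _
  · have e6 : c = b := Fin.ext e
    subst e6
    exact mem_insert_of_mem g1
  · have e6 : c = b' := Fin.ext e
    subst e6
    exact mem_insert_of_mem j1

theorem loc_Kc (k : ℕ) : Pool.Agent.Y364.NL.Loc (4 + k) (Kc k) (fun i => i.val < 10)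
    (fun u v => psi u.val v.val) (A0 k) (fun u => col 10 u.val) where
  id := by
    intro F hF u hu hQ c
    obtain ⟨m, hm, rfl⟩ := facet_Kc.1 hF
    exact (goodC_all m hm).1 u.val (mem_bits_of hu hQ) hQ c
  coc := by
    intro F hF u hu hQu v hv hQv w hw hQw c
    obtain ⟨m, hm, rfl⟩ := facet_Kc.1 hF
    exact (goodC_all m hm).2.1 u.val (mem_bits_of hu hQu) hQu v.val (mem_bits_of hv hQv) hQv
      w.val (mem_bits_of hw hQw) hQw c
  reg := by
    intro A hA hne _
    by_contra hcon
    push Not at hcon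
    apply hne
    apply eq_of_subset_of_card_le
    · intro i hi
      rw [mem_A0]
      exact hcon i hi
    · rw [card_A0]
      omega
  regR := by
    intro R hR _
    by_contra hcon
    push Not at hcon
    have : R ⊆ A0 k := fun i hi => mem_A0.2 (hcon i hi)
    have := card_le_card this
    rw [card_A0] at this
    omega
  col := by
    intro F hF hA u hu hQu v hv hQv
    obtain ⟨m, hm, hmB, rfl⟩ := facet_A0 hF hA
    have h10 : 10 ∈ bits m := by
      rcases hm with rfl | rfl | rfl <;> decide +kernel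
    have h11 : 11 ∈ bits m := by
      rcases hm with rfl | rfl | rfl <;> decide +kernel
    exact (goodC_all m hmB).2.2 h10 h11 u.val (mem_bits_of hu hQu) hQu v.val
      (mem_bits_of hv hQv) hQv
  cyc := by
    intro F F' R hF hF' hne hR hA h1 h2 G hG hG' R' hA' hR' hX
    exact cyc_aux hF hF' hne hR hA h1 h2 G hG hG' R' hA' hR' hX

theorem no_section (g : ℕ → ℕ → Fin 3)
    (H1 : ∀ m ∈ B38, ∀ u ∈ bits m, u < 10 → ∀ v ∈ bits m, v < 10 → g m v = psi u v (g m u))
    (H2 : ∀ m ∈ B38, ∀ m' ∈ B38, (bits (m &&& m')).length = 3 → ∀ u ∈ bits (m &&& m'), u < 10 →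
      g m u = g m' u) : False := by
  have h1 := H2 15 (by decide +kernel) 2061 (by decide +kernel) (by decide +kernel) 0 (by decide +kernel) (by decide +kernel)
  have h2 := H2 2061 (by decide +kernel) 2313 (by decide +kernel) (by decide +kernel) 0 (by decide +kernel) (by decide +kernel)
  have h3 := H1 2313 (by decide +kernel) 0 (by decide +kernel) (by decide +kernel) 3 (by decide +kernel) (by decide +kernel)
  have h4 := H2 2313 (by decide +kernel) 2328 (by decide +kernel) (by decide +kernel) 3 (by decide +kernel) (by decide +kernel)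
  have h5 := H1 2328 (by decide +kernel) 3 (by decide +kernel) (by decide +kernel) 4 (by decide +kernel) (by decide +kernel)
  have h6 := H2 2328 (by decide +kernel) 2322 (by decide +kernel) (by decide +kernel) 4 (by decide +kernel) (by decide +kernel)
  have h7 := H2 2322 (by decide +kernel) 278 (by decide +kernel) (by decide +kernel) 4 (by decide +kernel) (by decide +kernel)
  have h8 := H2 278 (by decide +kernel) 23 (by decide +kernel) (by decide +kernel) 4 (by decide +kernel) (by decide +kernel)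
  have h9 := H1 23 (by decide +kernel) 4 (by decide +kernel) (by decide +kernel) 0 (by decide +kernel) (by decide +kernel)
  have h10 := H2 23 (by decide +kernel) 15 (by decide +kernel) (by decide +kernel) 0 (by decide +kernel) (by decide +kernel)
  have key : ∀ c : Fin 3, psi 4 0 (psi 3 4 (psi 0 3 c)) ≠ c := by decide +kernel
  apply key (g 15 0)
  rw [h1, h2, ← h3, h4, ← h5, h6, h7, h8, ← h9, h10, h1, h2]

/-- the vertex with a given label -/
def vt (k u : ℕ) : Fin (13 + k) := if h : u < 13 + k then ⟨u, h⟩ else ⟨0, by omega⟩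

theorem vt_val {u : ℕ} (hu : u < 10) : (vt k u).val = u := by
  unfold vt
  rw [dif_pos (by omega)]

theorem bits_bit {m u : ℕ} (h : u ∈ bits m) : m.testBit u = true := by
  rw [mem_bits, mem_dec] at h
  exact h.2

theorem vt_mem {m u : ℕ} (h : u ∈ bits m) (hu : u < 10) : vt k u ∈ fac k m := by
  rw [mem_fac, vt_val hu]
  exact Or.inl (bits_bit h)

theorem ridge_card {m m' : ℕ} (hm : m ∈ B38) (h : (bits (m &&& m')).length = 3) :
    (fac k m ∩ fac k m').card = 4 + k := by
  have h1 : ((fac k m ∩ fac k m').image (rl k)) = tau k ∪ dec (m &&& m') := by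
    ext n
    rw [mem_image, mem_union, tau, mem_Ico, mem_dec]
    constructor
    · rintro ⟨i, hi, rfl⟩
      rw [mem_inter, mem_fac, mem_fac] at hi
      unfold rl
      by_cases h12 : i.val < 12
      · rw [if_pos h12]
        right
        refine ⟨by omega, ?_⟩
        rw [Nat.testBit_land]
        rcases hi.1 with h2 | h2
        · rcases hi.2 with h3 | h3
          · rw [h2, h3]; rfl
          · omega
        · omega
      · rw [if_neg h12]
        left
        have := i.isLt
        omega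
    · rintro (⟨h1, h2⟩ | ⟨h1, h2⟩)
      · refine ⟨⟨n - 100, by omega⟩, ?_, ?_⟩
        · rw [mem_inter, mem_fac, mem_fac]
          have : 12 ≤ n - 100 := by omega
          exact ⟨Or.inr this, Or.inr this⟩
        · unfold rl
          rw [if_neg (by show ¬ (n - 100 < 12); omega)]
          show n - 100 + 100 = n
          omega
      · rw [Nat.testBit_land, Bool.and_eq_true] at h2
        have := bit_lt hm h2.1
        refine ⟨⟨n, by omega⟩, ?_, ?_⟩
        · rw [mem_inter, mem_fac, mem_fac]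
          exact ⟨Or.inl h2.1, Or.inl h2.2⟩
        · unfold rl
          rw [if_pos (by show n < 12; omega)]
  rw [← card_image_of_injective _ (rl_inj k), h1, card_union_of_disjoint]
  · have e : (dec (m &&& m')).card = 3 := by
      have e2 : dec (m &&& m') = (bits (m &&& m')).toFinset := by
        ext n
        rw [List.mem_toFinset, mem_bits]
      rw [e2, List.toFinset_card_of_nodup, h]
      exact (List.nodup_range).filter _
    rw [e, tau, Nat.card_Ico]
    omega
  · rw [disjoint_left]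
    intro n hn hn'
    rw [tau, mem_Ico] at hn
    rw [mem_dec] at hn'
    omega

/-- the iterated cones are not locally constructible -/
theorem not_lc_Kc (k : ℕ) : ¬ IsLC (4 + k) (Kc k) := by
  refine Pool.Agent.Y364.NL.not_lc (loc_Kc k) ?_ (isCx_Kc k).2 ?_
  · intro F hF
    by_contra hcon
    push Not at hcon
    obtain ⟨m, hm, rfl⟩ := facet_Kc.1 hF
    have : fac k m ⊆ A0 k := fun i hi => mem_A0.2 (hcon i hi)
    have := card_le_card this
    rw [card_A0, card_fac hm] at this
    omega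
  · rintro ⟨g, hg1, hg2⟩
    apply no_section (fun m u => g (fac k m) (vt k u))
    · intro m hm u hu hu10 v hv hv10
      have := hg1 (fac k m) (facet_Kc.2 ⟨m, hm, rfl⟩) (vt k u) (vt_mem hu hu10)
        (by show (vt k u).val < 10; rw [vt_val hu10]; exact hu10) (vt k v) (vt_mem hv hv10)
        (by show (vt k v).val < 10; rw [vt_val hv10]; exact hv10)
      rw [vt_val hu10, vt_val hv10] at this
      exact this
    · intro m hm m' hm' h3 u hu hu10
      apply hg2 (fac k m ∩ fac k m') (ridge_card hm h3) (fac k m) (fac k m')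
        (facet_Kc.2 ⟨m, hm, rfl⟩) (facet_Kc.2 ⟨m', hm', rfl⟩) inter_subset_left
        inter_subset_right (vt k u)
      · have h4 := bits_bit hu
        rw [Nat.testBit_land, Bool.and_eq_true] at h4
        rw [mem_inter, mem_fac, mem_fac, vt_val hu10]
        exact ⟨Or.inl h4.1, Or.inl h4.2⟩
      · show (vt k u).val < 10
        rw [vt_val hu10]
        exact hu10

end Pool.Agent.V11153.NLC
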